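import Pool.Agent.H32.FE

namespace Pool.Agent.Results.MP_b27926_lc.NotFeMinimal

open Pool.Agent.H32.FE

theorem result : ∃ F : Ultrafilter ℕ+, Minimal MDvd F ∧ ¬ Minimal Fe F :=
  ⟨G0, ⟨ne1 L2, fun G h => (dvd_G0 h).imp id fun e => ⟨h, pure 1, pure 1, by
    rw [mul_one', one_mul', e]⟩⟩, fun h => (h.2 F0 fe).elim (ne1 L1) fun e => not_fe e.2⟩

end Pool.Agent.Results.MP_b27926_lc.NotFeMinimal
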